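import Pool.Agent.Q4.Dem.Main

/-!
# A Demazure crystal which is not a crystal of flagged skew tableaux

Crystal operators on (skew) tableaux are defined by the signature rule on the reading word (rows
from bottom to top, each row from left to right): `Q4.Dem.fOp`, `Q4.Dem.eOp`. `Q4.Dem.flagged n s b`
is the set of the semistandard tableaux of skew shape `s` with entries in `{1, …, n}` and the entries
of row `r` at most `b r`; `Q4.Dem.demazure s l` is the Demazure crystal
`𝒟_{i_1} ⋯ 𝒟_{i_k} {u_λ}` for the word `l = i_1 … i_k`, where `s` is the straight shape of `λ`.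
`Q4.Dem.IsCrystalIso` is the notion of isomorphism: a bijection which commutes with all `e_i` and
`f_i`, the operators being restricted to the two sets.

The statement: there are `n`, a partition `λ` with at most `n` parts and `w ∈ S_n` (given by a
reduced word `l`) such that the Demazure crystal of `w` and `λ` is not isomorphic to the crystal of
flagged skew tableaux of any skew shape with any flag `b` (in particular, with any nondecreasing
flag).
-/

namespace Pool.Agent.Results.MP_5741ae_al.NotFlagged

theorem result :
    ∃ (n : ℕ) (lam : ℕ → ℕ) (h1 : Antitone lam) (h2 : ∀ r, n ≤ r → lam r = 0)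
      (w : Equiv.Perm ℕ) (l : List ℕ),
      Q4.Dem.IsReducedWord n w l ∧
      ∀ (s : Q4.Dem.SkewShape) (b : ℕ → ℕ),
        ¬ ∃ φ : (ℕ × ℕ → ℕ) → (ℕ × ℕ → ℕ),
          Q4.Dem.IsCrystalIso n (Q4.Dem.straight n lam h1 h2) s
            (Q4.Dem.demazure (Q4.Dem.straight n lam h1 h2) l) (Q4.Dem.flagged n s b) φ :=
  ⟨4, Q4.Dem.lam, Q4.Dem.lam_anti, Q4.Dem.lam_zero, Q4.Dem.wordPerm [2, 1, 3], [2, 1, 3],
    Q4.Dem.red, fun s b h => h.elim fun φ hφ => Q4.Dem.main s b φ hφ⟩

end Pool.Agent.Results.MP_5741ae_al.NotFlagged
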